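import Pool.Agent.H398.Kt.MainC

/-!
# MP_6855ec_al, Q1 for the prime 2: `γ_G(M ⊗ M^*) = γ_G(M) ^ 2` in characteristic 2

For every field `k` of characteristic `2`, every finite group `G` and every
finite-dimensional `kG`-module `M` (projective or not).
-/

set_option autoImplicit false

namespace Pool.Agent.Results.MP_6855ec_al.CharTwo

open Pool.Agent.H398.Gam Ob

universe u v

theorem result (k : Type u) [Field k] [CharP k 2] (G : Type v) [Group G] [Fintype G]
    (M : Ob k G) : (M.tens M.dual).gamma = M.gamma ^ 2 := by
  by_cases hM : M.IsProj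
  · rw [gamma_isProj hH M hM, gamma_isProj hH (M.tens M.dual) (isProj_tens hH hM M.dual)]
    norm_num
  · exact Pool.Agent.H398.Kt.tensDual_two G M hM

end Pool.Agent.Results.MP_6855ec_al.CharTwo
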